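import Pool.Agent.H655.GS.Fin

/-! `E_GH` and isometry of Polish metric spaces have the same Borel relations below them: every
analytic set of pairs disjoint from `E_GH` is separated from it by a Borel homomorphism to
isometry, so every Borel relation which is Borel reducible to `E_GH` is Borel reducible to isometry
of Polish metric spaces. -/

namespace Pool.Agent.Results.MP_6859fc_lc.BorelBelow

open Pool.Agent.H655.UR

/-- (1) For every analytic set `A` of pairs of metrics on `ℕ` none of which is at
Gromov–Hausdorff distance zero there is a Borel map `θ` from the space `Met` of metrics on `ℕ` to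
itself such that `ρ_GH(f, g) = 0` implies that the completions of `θ f` and `θ g` are isometric,
while for `(f, g)` in `A` they are not isometric.
(2) Every Borel relation on a standard Borel space which is Borel reducible to `ρ_GH = 0` is Borel
reducible to isometry of completions. -/
theorem result :
    (∀ A : Set (Met × Met), MeasureTheory.AnalyticSet A → (∀ p ∈ A, rhoGH p.1 p.2 ≠ 0) →
      ∃ θ : Met → Met, Measurable θ ∧
        (∀ f g, rhoGH f g = 0 → Nonempty (MM (θ f) ≃ᵢ MM (θ g))) ∧
        ∀ p ∈ A, ¬ Nonempty (MM (θ p.1) ≃ᵢ MM (θ p.2))) ∧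
    ∀ (X : Type) [MeasurableSpace X] [StandardBorelSpace X] (E : X → X → Prop),
      MeasurableSet {p : X × X | E p.1 p.2} →
      (∃ h : X → Met, Measurable h ∧ ∀ x y, E x y ↔ rhoGH (h x) (h y) = 0) →
      ∃ k : X → Met, Measurable k ∧ ∀ x y, E x y ↔ Nonempty (MM (k x) ≃ᵢ MM (k y)) :=
  ⟨Pool.Agent.H655.GS.sep, fun X _ _ E hE ⟨h, hh, hr⟩ =>
    Pool.Agent.H655.GS.below X E hE h hh hr⟩

end Pool.Agent.Results.MP_6859fc_lc.BorelBelow
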