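import Pool.Agent.H655.GE.Meas

/-! `E_GH` reduces to isometry of Polish metric spaces by a map measurable for the `σ`-algebra
generated by the analytic sets. -/

namespace Pool.Agent.Results.MP_6859fc_lc.MeasurableReduction

open Pool.Agent.H655.UR Pool.Agent.H655.GE

/-- There is a map `θ` from the space `Met` of metrics on `ℕ` to itself, measurable from the
`σ`-algebra generated by the analytic sets to the Borel `σ`-algebra, such that the completions of
`(ℕ, f)` and `(ℕ, g)` are at Gromov–Hausdorff distance zero if and only if the completions of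
`(ℕ, θ f)` and `(ℕ, θ g)` are isometric. -/
theorem result : ∃ θ : Met → Met,
    @Measurable Met Met (MeasurableSpace.generateFrom {S : Set Met | MeasureTheory.AnalyticSet S})
      (borel Met) θ ∧
    ∀ f g : Met, rhoGH f g = 0 ↔ Nonempty (MM (θ f) ≃ᵢ MM (θ g)) :=
  ⟨theta, theta_meas_analytic, fun _ _ => ⟨fwd, fun ⟨H⟩ => bck H⟩⟩

end Pool.Agent.Results.MP_6859fc_lc.MeasurableReduction
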