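import Pool.Agent.H655.ND.Main

/-! On the metrics with a bounded nowhere dense set of distances `E_GH` is Borel reducible to
isomorphism of countable structures. -/

namespace Pool.Agent.Results.MP_6859fc_lc.NowhereDense

open Pool.Agent.H655.UR Pool.Agent.H655.ND

/-- There is one Borel map `h` from the space `Met` of metrics on `ℕ` to the space of countable
structures (sequences of binary relations on `ℕ`) such that
(1) if `ρ_GH(f, g) = 0`, then `h f` and `h g` are isomorphic;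
(2) for `f` and `g` whose set of distances is uniformly nowhere dense (`Gappy`), `ρ_GH(f, g) = 0` if
and only if `h f` and `h g` are isomorphic;
(3) this holds for all bounded `f`, `g` with a nowhere dense set of distances. -/
theorem result : ∃ h : Met → (ℕ → ℕ → ℕ → Bool), Measurable h ∧
    (∀ f g, rhoGH f g = 0 → ∃ σ : Equiv.Perm ℕ, ∀ k n m, h g k (σ n) (σ m) = h f k n m) ∧
    (∀ f g, Gappy f → Gappy g →
      (rhoGH f g = 0 ↔ ∃ σ : Equiv.Perm ℕ, ∀ k n m, h g k (σ n) (σ m) = h f k n m)) ∧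
    ∀ f g : Met, (∃ B, ∀ i j, f.1 i j ≤ B) → (∃ B, ∀ i j, g.1 i j ≤ B) →
      IsNowhereDense (Set.range fun p : ℕ × ℕ => f.1 p.1 p.2) →
      IsNowhereDense (Set.range fun p : ℕ × ℕ => g.1 p.1 p.2) →
      (rhoGH f g = 0 ↔ ∃ σ : Equiv.Perm ℕ, ∀ k n m, h g k (σ n) (σ m) = h f k n m) :=
  ⟨str, str_meas, fun _ _ => str_fwd,
    fun _ _ hf hg => ⟨str_fwd, fun ⟨σ, hσ⟩ => str_bwd hf hg σ hσ⟩,
    fun _ _ ⟨_, hf⟩ ⟨_, hg⟩ hf' hg' =>
      ⟨str_fwd, fun ⟨σ, hσ⟩ => str_bwd (gappy_of hf hf') (gappy_of hg hg') σ hσ⟩⟩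

end Pool.Agent.Results.MP_6859fc_lc.NowhereDense
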