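import Pool.Agent.H655.TR.Uni

/-! The Gromov–Hausdorff distance is Borel-uniformly continuous bireducible with the orbit
pseudometric of the automorphism group of the tree of finite sequences on real labellings. -/

namespace Pool.Agent.Results.MP_6859fc_lc.TreePseudometric

open Pool.Agent.H655.UR Pool.Agent.H655.TR

/-- The Gromov–Hausdorff distance on the space `Met` of metrics on `ℕ` and the orbit pseudometric
`rhoTree` on the space `Lab` of labellings of the tree of finite sequences of natural numbers by
reals of the unit interval are Borel-uniformly continuous reducible to each other; in particular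
`E_GH` and the relation `rhoTree = 0` are Borel reducible to each other. -/
theorem result :
    BURed (borel Met) (MeasurableSpace.pi : MeasurableSpace Lab) rhoGH rhoTree ∧
      BURed (MeasurableSpace.pi : MeasurableSpace Lab) (borel Met) rhoTree rhoGH ∧
      (∃ h : Met → Lab, Measurable h ∧ ∀ f g, rhoGH f g = 0 ↔ rhoTree (h f) (h g) = 0) ∧
      ∃ k : Lab → Met, Measurable k ∧ ∀ x y, rhoTree x y = 0 ↔ rhoGH (k x) (k y) = 0 :=
  ⟨tree_ured, gh_ured, zero_of_bured tree_ured, zero_of_bured gh_ured⟩

end Pool.Agent.Results.MP_6859fc_lc.TreePseudometric
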